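import Pool.Agent.R166.HT.Fin3
import Pool.Agent.R166.HT.Hull
import Pool.Agent.R166.HT.Polar

/-!
# MP_b5ed04_co: the maximisers of the Holmes-Thompson translative convex hull constant

The plane is `ℝ × ℝ` with Lebesgue measure.  For a plane convex body `K` (compact, convex, nonempty
interior) the relative norm has the unit ball `relBall K = (K - K) / 2`, the Holmes-Thompson area of
`A` for the unit ball `M` is `area A * area (polar M) / π`, and `cHT K` is the supremum (it is
attained, see `result`) of the Holmes-Thompson areas of `conv (K ∪ (p + K))` over all `p` with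
`(p + K) ∩ K ≠ ∅`.

`arcBody a` is the body `M_0(a)` of the problem: the square with vertices `(±1/√2, ±1/√2)` whose
top and bottom edges are replaced by the arcs of the ellipse `x^2/a^2 + y^2/b^2 = 1`,
`b = a / √(2 a^2 - 1)`, and whose left and right edges are replaced by the rotated arcs.  The body
`M_0` is `arcBody a` for `a = (1 + √5) / 2 = 1.61803…`.

Result: the plane convex bodies at which `cHT` attains its maximum over all plane convex bodies are
exactly the affine images of `M_0`.
-/

set_option autoImplicit false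

namespace Pool.Agent.Results.MP_b5ed04_co.Maximisers

open MeasureTheory Set

/-- plane convex body -/
def IsBody (K : Set (ℝ × ℝ)) : Prop := Convex ℝ K ∧ IsCompact K ∧ (interior K).Nonempty

/-- the unit ball `(K - K) / 2` of the relative norm -/
def relBall (K : Set (ℝ × ℝ)) : Set (ℝ × ℝ) :=
  {z | ∃ x ∈ K, ∃ y ∈ K, z = (1 / 2 : ℝ) • (x - y)}

/-- the polar body -/
def polar (M : Set (ℝ × ℝ)) : Set (ℝ × ℝ) := {y | ∀ x ∈ M, x.1 * y.1 + x.2 * y.2 ≤ 1}

/-- Lebesgue measure as a real number -/
noncomputable def area (A : Set (ℝ × ℝ)) : ℝ := (volume A).toReal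

/-- the Holmes-Thompson area of `A` for the norm with unit ball `M` -/
noncomputable def volHT (M A : Set (ℝ × ℝ)) : ℝ := area A * area (polar M) / Real.pi

/-- the translate `p + K` -/
def shift (p : ℝ × ℝ) (K : Set (ℝ × ℝ)) : Set (ℝ × ℝ) := (fun x => p + x) '' K

/-- the Holmes-Thompson areas of the convex hulls of `K` and of the translates of `K` meeting `K` -/
def hulls (K : Set (ℝ × ℝ)) : Set ℝ :=
  {v | ∃ p : ℝ × ℝ, (shift p K ∩ K).Nonempty ∧
    v = volHT (relBall K) (convexHull ℝ (K ∪ shift p K))}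

/-- the Holmes-Thompson translative convex hull constant -/
noncomputable def cHT (K : Set (ℝ × ℝ)) : ℝ := sSup (hulls K)

/-- the body `M_0(a)`, bounded by four elliptic arcs -/
noncomputable def arcBody (a : ℝ) : Set (ℝ × ℝ) :=
  {p | |p.1| ≤ 1 / √2 ∧ p.1 ^ 2 / a ^ 2 + p.2 ^ 2 / (a / √(2 * a ^ 2 - 1)) ^ 2 ≤ 1} ∪
  {p | |p.2| ≤ 1 / √2 ∧ p.2 ^ 2 / a ^ 2 + p.1 ^ 2 / (a / √(2 * a ^ 2 - 1)) ^ 2 ≤ 1}

/-- the golden ratio `1.61803…` -/
noncomputable def gr : ℝ := (1 + √5) / 2

open Pool.Agent.R166.HT in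
lemma arc_eq : arcBody gr = M0 := by
  have hg : gr = g := rfl
  have hgp := g_pos
  have h1 : (0 : ℝ) ≤ 2 * g ^ 2 - 1 := by
    have := g_lo
    nlinarith
  have hb : (g / √(2 * g ^ 2 - 1)) ^ 2 = 1 / g := by
    rw [div_pow, Real.sq_sqrt h1]
    have : 2 * g ^ 2 - 1 = g ^ 2 * g := by
      have h3 := g3
      have h2 := g_sq
      nlinarith
    rw [this]
    field_simp
  have hx : ∀ t : ℝ, t ^ 2 / (1 / g) = g * t ^ 2 := by
    intro t
    field_simp
  unfold arcBody M0
  rw [hg, hb]
  simp only [hx]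

/-- The constant is attained for every plane convex body; `M_0` is a plane convex body, its constant
is `16 (1 + √g θ)^2 / (π g) = 7.8111…` with the golden ratio `g` and `θ = arctan (g^(-3/2))`; and the
plane convex bodies at which the constant is maximal are exactly the affine images of `M_0`. -/
theorem result :
    (∀ K : Set (ℝ × ℝ), IsBody K → IsGreatest (hulls K) (cHT K)) ∧
    IsBody (arcBody gr) ∧
    cHT (arcBody gr) =
      16 * (1 + √gr * Real.arctan (1 / (gr * √gr))) ^ 2 / (Real.pi * gr) ∧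
    ∀ K : Set (ℝ × ℝ), IsBody K →
      ((∀ K' : Set (ℝ × ℝ), IsBody K' → cHT K' ≤ cHT K) ↔
        ∃ (L : (ℝ × ℝ) ≃ₗ[ℝ] (ℝ × ℝ)) (v : ℝ × ℝ), K = (fun x => v + L x) '' arcBody gr) := by
  rw [arc_eq]
  exact Pool.Agent.R166.HT.main Pool.Agent.R166.HT.hull Pool.Agent.R166.HT.polarArea

end Pool.Agent.Results.MP_b5ed04_co.Maximisers
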